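import Pool.Agent.H85.BC.Basic

/-!
# Modules EQV, INT, SPX of the board bcg_modules
-/

set_option autoImplicit false

open scoped InnerProductSpace Topology
open Filter

namespace Pool.Agent.H19.BC

open Pool.Agent.H85.BC

variable {H : Type} [NormedAddCommGroup H] [InnerProductSpace ℂ H] [CompleteSpace H]

theorem pf_EQV (hCMP : T_CMP H) : T_EQV H := by
  intro N ξ hξ hN e he hpe f hf hpf hef
  obtain ⟨v, hv, h1, h2⟩ := hCMP N ξ hξ hN e he hpe f hf hpf hef.le
  have hp1 : IsStarProjection (star v * v) := by rw [h1]; exact hpe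
  have hp2 : IsStarProjection (v * star v) := proj_mul_star hp1
  have h3 : ‖e ξ‖ = ‖(v * star v) ξ‖ := hξ.norm_eq_of_equiv hv h1 rfl hpe hp2
  have h4 : f * (v * star v) = v * star v := by rw [← mul_assoc, h2]
  have h5 := norm_sq_sub_proj ξ hp2 hpf h4
  rw [← h3, hef, sub_self] at h5
  have h6 : (f - v * star v) ξ = 0 := by
    rw [← norm_eq_zero]
    exact pow_eq_zero_iff (two_ne_zero) |>.1 h5
  have h7 := hξ.eq_zero (sub_mem hf (mul_mem hv (star_mem hv))) h6
  exact ⟨v, hv, h1, (sub_eq_zero.1 h7).symm⟩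

/-- an operator of the form `z z*` which is a multiple of a nonzero projection is a nonnegative
multiple -/
lemma real_coeff {z p : H →L[ℂ] H} (hp : IsStarProjection p) (hp0 : p ≠ 0) {c : ℂ}
    (h : z * star z = c • p) : ∃ r : ℝ, 0 ≤ r ∧ c = (r : ℂ) := by
  obtain ⟨η, hη⟩ : ∃ η : H, p η ≠ 0 := by
    by_contra hc
    push Not at hc
    exact hp0 (ContinuousLinearMap.ext hc)
  have hn : 0 < ‖p η‖ ^ 2 := by positivity
  have h1 : (inner ℂ η ((z * star z) η) : ℂ) = ((‖star z η‖ ^ 2 : ℝ) : ℂ) := by
    rw [mul_app]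
    have := inner_star_left (star z) η (star z η)
    rw [star_star] at this
    have h2 : (inner ℂ η (z (star z η)) : ℂ) = inner ℂ (star z η) (star z η) := by
      rw [inner_star_left]
    rw [h2, inner_self_eq_norm_sq_to_K]
    push_cast
    rfl
  have h3 : (inner ℂ η (p η) : ℂ) = ((‖p η‖ ^ 2 : ℝ) : ℂ) := by
    have h4 : (inner ℂ (p η) (p η) : ℂ) = inner ℂ η (p η) := by
      conv_lhs => rw [← hp.isSelfAdjoint.star_eq]
      rw [inner_star_left, hp.isSelfAdjoint.star_eq, ← mul_app, hp.isIdempotentElem.eq]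
    rw [← h4, inner_self_eq_norm_sq_to_K]
    push_cast
    rfl
  rw [h, smul_apply, inner_smul_right, h3] at h1
  refine ⟨‖star z η‖ ^ 2 / ‖p η‖ ^ 2, by positivity, ?_⟩
  rw [Complex.ofReal_div, ← h1]
  rw [mul_div_cancel_right₀]
  exact_mod_cast hn.ne'

theorem pf_INT (hCC : T_CC H) : T_INT H := by
  intro N hN p hp hpp hp0 q hq hpq hq0 θ hθ hns z hz hpz hint
  by_contra hz0
  apply hns
  have hp1 : p * z = z := by
    rw [← hpz, ← mul_assoc, ← mul_assoc, hpp.isIdempotentElem.eq]
  have hq1 : z * q = z := by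
    rw [← hpz, mul_assoc, hpq.isIdempotentElem.eq]
  have hsp : star z * p = star z := by
    have := congrArg star hp1
    rwa [star_mul, hpp.isSelfAdjoint.star_eq] at this
  have hsq : q * star z = star z := by
    have := congrArg star hq1
    rwa [star_mul, hpq.isSelfAdjoint.star_eq] at this
  -- the adjoint relation
  have hint' : ∀ x ∈ corner N p, star z * x = θ x * star z := by
    intro x hx
    have h1 := congrArg star (hint (star x) (corner_star hpp hx))
    rw [star_mul, star_mul, star_star, hθ.star x hx, star_star] at h1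
    exact h1
  have hzz : z * star z ∈ corner N p :=
    mem_corner (mul_mem hz (star_mem hz)) (by rw [← mul_assoc, hp1]) (by rw [mul_assoc, hsp])
  have hzz' : star z * z ∈ corner N q :=
    mem_corner (mul_mem (star_mem hz) hz) (by rw [← mul_assoc, hsq]) (by rw [mul_assoc, hq1])
  obtain ⟨c, hc⟩ := hCC N hN p hp hpp (z * star z) hzz (by
    intro x hx
    rw [mul_assoc, hint' x hx, ← mul_assoc, ← mul_assoc, hint x hx])
  obtain ⟨c₂, hc₂⟩ := hCC N hN q hq hpq (star z * z) hzz' (by
    intro y hy
    obtain ⟨x, hx, rfl⟩ := hθ.surj y hy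
    rw [mul_assoc, ← hint x hx, ← mul_assoc, ← mul_assoc, hint' x hx])
  have hcc : c = c₂ := by
    have h1 : c • z = c₂ • z := by
      calc c • z = (c • p) * z := by rw [smul_mul_assoc, hp1]
        _ = z * star z * z := by rw [hc]
        _ = z * (star z * z) := mul_assoc _ _ _
        _ = c₂ • z := by rw [hc₂, mul_smul_comm, hq1]
    have h2 : (c - c₂) • z = 0 := by rw [sub_smul, h1, sub_self]
    rcases smul_eq_zero.1 h2 with h | h
    · exact sub_eq_zero.1 h
    · exact absurd h hz0
  obtain ⟨r, hr0, hr⟩ := real_coeff hpp hp0 hc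
  have hr1 : r ≠ 0 := by
    rintro rfl
    rw [hr, Complex.ofReal_zero, zero_smul] at hc
    exact hz0 ((CStarRing.mul_star_self_eq_zero_iff z).1 hc)
  have hrpos : 0 < r := lt_of_le_of_ne hr0 (Ne.symm hr1)
  set s : ℂ := (((Real.sqrt r)⁻¹ : ℝ) : ℂ) with hs
  have hss : s * s * c = 1 := by
    rw [hr, hs, ← Complex.ofReal_mul, ← Complex.ofReal_mul]
    have : (Real.sqrt r)⁻¹ * (Real.sqrt r)⁻¹ * r = 1 := by
      have h1 : Real.sqrt r * Real.sqrt r = r := Real.mul_self_sqrt hr0
      have h2 : Real.sqrt r ≠ 0 := (Real.sqrt_pos.2 hrpos).ne'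
      field_simp
      nlinarith
    rw [this, Complex.ofReal_one]
  have hsr : star s = s := by
    rw [hs]
    exact Complex.conj_ofReal _
  refine ⟨s • star z, smul_mem' N s (star_mem hz), ?_, ?_, ?_⟩
  · rw [star_smul, star_star, hsr, smul_mul_assoc, mul_smul_comm, smul_smul, hc, smul_smul, hss,
      one_smul]
  · rw [star_smul, star_star, hsr, smul_mul_assoc, mul_smul_comm, smul_smul, hc₂, ← hcc, smul_smul,
      hss, one_smul]
  · intro x hx
    rw [star_smul, star_star, hsr, smul_mul_assoc, smul_mul_assoc, mul_smul_comm, smul_smul,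
      hint' x hx, mul_assoc, hc₂, ← hcc, mul_smul_comm, corner_right hpq (hθ.maps x hx), smul_smul,
      hss, one_smul]

/-- additivity over finite sums -/
lemma map_sum_corner {N : VonNeumannAlgebra H} {p q : H →L[ℂ] H}
    {θ : (H →L[ℂ] H) → (H →L[ℂ] H)} (h : CornerIso N p q θ) {ι : Type} (s : Finset ι)
    (x : ι → (H →L[ℂ] H)) (hx : ∀ i ∈ s, x i ∈ corner N p) :
    (∑ i ∈ s, x i) ∈ corner N p ∧ θ (∑ i ∈ s, x i) = ∑ i ∈ s, θ (x i) := by
  classical
  induction s using Finset.induction_on with
  | empty =>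
    simp only [Finset.sum_empty]
    exact ⟨⟨zero_mem N, by simp⟩, h.zero⟩
  | insert a s ha ih =>
    obtain ⟨h1, h2⟩ := ih (fun i hi => hx i (Finset.mem_insert_of_mem hi))
    have h3 := hx a (Finset.mem_insert_self a s)
    rw [Finset.sum_insert ha, Finset.sum_insert ha]
    exact ⟨corner_add h3 h1, by rw [h.add _ h3 _ h1, h2]⟩

/-- summands of a projection lie below it -/
lemma le_of_sum {p : H →L[ℂ] H} (hp : IsStarProjection p) {n : ℕ} (c : Fin n → (H →L[ℂ] H))
    (hsum : ∑ i, c i * star (c i) = p) (i : Fin n) : p * c i = c i := by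
  have h1 : star (c i) * (1 - p) = 0 := by
    ext η
    set ζ := (1 - p) η with hζ
    have hpζ : p ζ = 0 := by
      rw [hζ, ← mul_app, mul_sub, mul_one, hp.isIdempotentElem.eq, sub_self]
      rfl
    have h2 : (inner ℂ ζ ((∑ i, c i * star (c i)) ζ) : ℂ) = 0 := by
      rw [hsum, hpζ, inner_zero_right]
    have h3 : (inner ℂ ζ ((∑ i, c i * star (c i)) ζ) : ℂ) =
        ((∑ i, ‖star (c i) ζ‖ ^ 2 : ℝ) : ℂ) := by
      rw [sum_apply, inner_sum]
      push_cast
      apply Finset.sum_congr rfl
      intro j _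
      show (inner ℂ ζ (c j (star (c j) ζ)) : ℂ) = (‖star (c j) ζ‖ : ℂ) ^ 2
      have h4 : (inner ℂ ζ (c j (star (c j) ζ)) : ℂ) = inner ℂ (star (c j) ζ) (star (c j) ζ) := by
        rw [inner_star_left]
      rw [h4, inner_self_eq_norm_sq_to_K]
      rfl
    rw [h3] at h2
    have h5 : ∑ i, ‖star (c i) ζ‖ ^ 2 = 0 := by exact_mod_cast h2
    have h6 := (Finset.sum_eq_zero_iff_of_nonneg (fun j _ => by positivity)).1 h5 i
      (Finset.mem_univ i)
    have h7 : ‖star (c i) ζ‖ = 0 := pow_eq_zero_iff (two_ne_zero) |>.1 h6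
    rw [mul_app, ← hζ, zero_apply]
    exact norm_eq_zero.1 h7
  have h2 := congrArg star h1
  rw [star_mul, star_star, star_sub, star_one, hp.isSelfAdjoint.star_eq, star_zero, sub_mul,
    one_mul] at h2
  exact (sub_eq_zero.1 h2).symm

theorem pf_SPX (hCOV : T_COV H) : T_SPX H := by
  intro N ξ hN p hp hpp q hq hpq θ hθ e he hpe he0 hle hsp
  obtain ⟨v, hv, hv1, hv2, hv3⟩ := hsp
  obtain ⟨n, c, hc, hsum⟩ := hCOV N ξ hN e he hpe he0 p hp hpp
  have hep : e * p = e := proj_mul_comm_of_le hpe hpp hle
  have hpc : ∀ i, p * c i = c i := le_of_sum hpp c hsum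
  have hcc : ∀ i, c i ∈ corner N p := fun i => mem_corner (hc i).1 (hpc i) (by
    rw [← (hc i).2.1, mul_assoc, hep])
  have hcs : ∀ i, star (c i) ∈ corner N p := fun i => corner_star hpp (hcc i)
  have hec : ∀ i, e * star (c i) = star (c i) := by
    intro i
    have := congrArg star (hc i).2.1
    rwa [star_mul, hpe.isSelfAdjoint.star_eq] at this
  have hE : ∀ (x : H →L[ℂ] H), x ∈ corner N p → ∀ i j, star (c i) * x * c j ∈ corner N e := by
    intro x hx i j
    apply mem_corner (mul_mem (mul_mem (star_mem (hc i).1) hx.1) (hc j).1)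
    · rw [← mul_assoc, ← mul_assoc, hec]
    · rw [mul_assoc, (hc j).2.1]
  set V : H →L[ℂ] H := ∑ k, θ (c k) * v * star (c k) with hV
  have hVs : star V = ∑ k, c k * star v * θ (star (c k)) := by
    rw [hV, star_sum]
    apply Finset.sum_congr rfl
    intro k _
    rw [star_mul, star_mul, star_star, hθ.star _ (hcc k), mul_assoc]
  have key : ∀ x ∈ corner N p, V * x * star V = θ x := by
    intro x hx
    have e1 : x = ∑ k, ∑ l, c k * (star (c k) * x * c l) * star (c l) := by
      have : x = (∑ k, c k * star (c k)) * x * (∑ l, c l * star (c l)) := by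
        rw [hsum, hx.2]
      conv_lhs => rw [this]
      rw [Finset.sum_mul, Finset.sum_mul]
      apply Finset.sum_congr rfl
      intro k _
      rw [Finset.mul_sum]
      apply Finset.sum_congr rfl
      intro l _
      simp only [mul_assoc]
    have hin : ∀ k l, c k * (star (c k) * x * c l) * star (c l) ∈ corner N p := fun k l =>
      corner_mul hpp (corner_mul hpp (hcc k) (corner_mul hpp (corner_mul hpp (hcs k) hx) (hcc l)))
        (hcs l)
    have e2 : θ x = ∑ k, ∑ l, θ (c k) * θ (star (c k) * x * c l) * θ (star (c l)) := by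
      conv_lhs => rw [e1]
      have hk : ∀ k ∈ (Finset.univ : Finset (Fin n)),
          (∑ l, c k * (star (c k) * x * c l) * star (c l)) ∈ corner N p := fun k _ =>
        (map_sum_corner hθ Finset.univ _ (fun l _ => hin k l)).1
      rw [(map_sum_corner hθ Finset.univ _ hk).2]
      apply Finset.sum_congr rfl
      intro k _
      rw [(map_sum_corner hθ Finset.univ _ (fun l _ => hin k l)).2]
      apply Finset.sum_congr rfl
      intro l _
      have m1 : star (c k) * x * c l ∈ corner N p := corner_mul hpp (corner_mul hpp (hcs k) hx)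
        (hcc l)
      rw [hθ.mul _ (corner_mul hpp (hcc k) m1) _ (hcs l), hθ.mul _ (hcc k) _ m1]
    rw [e2, hVs, hV, Finset.sum_mul, Finset.sum_mul]
    apply Finset.sum_congr rfl
    intro k _
    rw [Finset.mul_sum]
    apply Finset.sum_congr rfl
    intro l _
    rw [hv3 _ (hE x hx k l)]
    simp only [mul_assoc]
  have key2 : ∀ x ∈ corner N p, star V * θ x * V = x := by
    intro x hx
    have e3 : ∀ k l, star v * θ (star (c k) * x * c l) * v = star (c k) * x * c l := by
      intro k l
      have m := hE x hx k l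
      rw [hv3 _ m]
      calc star v * (v * (star (c k) * x * c l) * star v) * v
          = (star v * v) * (star (c k) * x * c l) * (star v * v) := by simp only [mul_assoc]
        _ = star (c k) * x * c l := by rw [hv1, m.2]
    have e4 : star V * θ x * V = ∑ k, ∑ l, c k * (star v * θ (star (c k) * x * c l) * v) *
        star (c l) := by
      rw [hVs, hV, Finset.sum_mul, Finset.sum_mul]
      apply Finset.sum_congr rfl
      intro k _
      rw [Finset.mul_sum]
      apply Finset.sum_congr rfl
      intro l _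
      rw [hθ.mul _ (corner_mul hpp (hcs k) hx) _ (hcc l), hθ.mul _ (hcs k) _ hx]
      simp only [mul_assoc]
    rw [e4]
    simp only [e3]
    have : x = (∑ k, c k * star (c k)) * x * (∑ l, c l * star (c l)) := by
      rw [hsum, hx.2]
    conv_rhs => rw [this]
    rw [Finset.sum_mul, Finset.sum_mul]
    apply Finset.sum_congr rfl
    intro k _
    rw [Finset.mul_sum]
    apply Finset.sum_congr rfl
    intro l _
    simp only [mul_assoc]
  have hθp : θ p = q := hθ.map_unit hp hpp hq hpq
  have hpcn : p ∈ corner N p := p_mem_corner hp hpp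
  have hqV : q * V = V := by
    rw [hV, Finset.mul_sum]
    apply Finset.sum_congr rfl
    intro k _
    rw [← mul_assoc, ← mul_assoc, corner_left hpq (hθ.maps _ (hcc k))]
  have hVp : V * p = V := by
    rw [hV, Finset.sum_mul]
    apply Finset.sum_congr rfl
    intro k _
    rw [mul_assoc, corner_right hpp (hcs k)]
  refine ⟨V, ?_, ?_, ?_, fun x hx => (key x hx).symm⟩
  · exact sum_mem' N _ _ fun k _ => mul_mem (mul_mem (hθ.maps _ (hcc k)).1 hv)
      (star_mem (hc k).1)
  · have := key2 p hpcn
    rwa [hθp, mul_assoc, hqV] at this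
  · have := key p hpcn
    rwa [hVp, hθp] at this

end Pool.Agent.H19.BC
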