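import Pool.Agent.H85.BC.Basic

/-!
# Module TZ of the board bcg_modules
-/

set_option autoImplicit false

open scoped InnerProductSpace Topology
open Filter

namespace Pool.Agent.H19.BC

open Pool.Agent.H85.BC

variable {H : Type} [NormedAddCommGroup H] [InnerProductSpace ℂ H] [CompleteSpace H]

/-- the corner as a submodule -/
noncomputable def cs (N : VonNeumannAlgebra H) (p : H →L[ℂ] H) : Submodule ℂ (H →L[ℂ] H) where
  carrier := corner N p
  add_mem' := fun hx hy => corner_add hx hy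
  zero_mem' := ⟨zero_mem N, by simp⟩
  smul_mem' := fun c _ hx => corner_smul c hx

/-- the map `x ↦ x ξ` -/
noncomputable def gm (N : VonNeumannAlgebra H) (p : H →L[ℂ] H) (ξ : H) : cs N p →ₗ[ℂ] H where
  toFun x := x.1 ξ
  map_add' _ _ := rfl
  map_smul' _ _ := rfl

/-- the closure of the range -/
noncomputable def Kc (N : VonNeumannAlgebra H) (p : H →L[ℂ] H) (ξ : H) : Submodule ℂ H :=
  (LinearMap.range (gm N p ξ)).topologicalClosure

lemma gm_mem (N : VonNeumannAlgebra H) (p : H →L[ℂ] H) (ξ : H) (x : cs N p) :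
    gm N p ξ x ∈ Kc N p ξ := Submodule.le_topologicalClosure _ ⟨x, rfl⟩

/-- the map `x ↦ x ξ` into the closure -/
noncomputable def em (N : VonNeumannAlgebra H) (p : H →L[ℂ] H) (ξ : H) :
    cs N p →ₗ[ℂ] Kc N p ξ := LinearMap.codRestrict (Kc N p ξ) (gm N p ξ) (gm_mem N p ξ)

lemma em_dense (N : VonNeumannAlgebra H) (p : H →L[ℂ] H) (ξ : H) : DenseRange (em N p ξ) := by
  intro k
  rw [closure_subtype]
  have h1 : (k : H) ∈ closure ((LinearMap.range (gm N p ξ) : Submodule ℂ H) : Set H) := k.2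
  refine closure_mono ?_ h1
  rintro _ ⟨x, rfl⟩
  exact ⟨em N p ξ x, ⟨x, rfl⟩, rfl⟩

/-- a closed subspace which contains the images of the `x ξ` contains the image of `Kc` -/
lemma Kc_le (N : VonNeumannAlgebra H) (p : H →L[ℂ] H) (ξ : H) (y : H →L[ℂ] H)
    (L : Submodule ℂ H) (hL : IsClosed (L : Set H)) (hy : ∀ x : cs N p, y (gm N p ξ x) ∈ L) :
    ∀ η ∈ Kc N p ξ, y η ∈ L := by
  intro η hη
  have h1 : Kc N p ξ ≤ L.comap y.toLinearMap := by
    apply Submodule.topologicalClosure_minimal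
    · rintro _ ⟨ζ, rfl⟩
      exact hy ζ
    · exact hL.preimage y.continuous
  exact h1 hη

lemma Kc_invariant (N : VonNeumannAlgebra H) {p : H →L[ℂ] H} (hp : IsStarProjection p) (ξ : H)
    {x : H →L[ℂ] H} (hx : x ∈ corner N p) : ∀ η ∈ Kc N p ξ, x η ∈ Kc N p ξ := by
  apply Kc_le N p ξ x (Kc N p ξ) (Submodule.isClosed_topologicalClosure _)
  intro y
  exact gm_mem N p ξ ⟨x * y.1, corner_mul hp hx y.2⟩

instance (N : VonNeumannAlgebra H) (p : H →L[ℂ] H) (ξ : H) : CompleteSpace (Kc N p ξ) :=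
  (Submodule.isClosed_topologicalClosure _).completeSpace_coe

lemma proj_comm (N : VonNeumannAlgebra H) {p : H →L[ℂ] H} (hp : IsStarProjection p) (ξ : H)
    {x : H →L[ℂ] H} (hx : x ∈ corner N p) (η : H) :
    (Kc N p ξ).starProjection (x η) = x ((Kc N p ξ).starProjection η) := by
  apply Submodule.eq_starProjection_of_mem_of_inner_eq_zero
  · exact Kc_invariant N hp ξ hx _ (Submodule.starProjection_apply_mem _ _)
  · intro w hw
    rw [← map_sub]
    have h1 := inner_star_right x (η - (Kc N p ξ).starProjection η) w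
    rw [← h1]
    exact Submodule.starProjection_inner_eq_zero _ _
      (Kc_invariant N hp ξ (corner_star hp hx) w hw)

theorem pf_TZ : T_TZ H := by
  intro N ξ hξ p hp hpp q hq hpq hq0 θ hθ l hl
  -- the map x ξ ↦ θ(x) ξ
  let f : cs N p →ₗ[ℂ] H :=
    { toFun := fun x => θ x.1 ξ
      map_add' := by
        intro x y
        show θ (x.1 + y.1) ξ = θ x.1 ξ + θ y.1 ξ
        rw [hθ.add x.1 x.2 y.1 y.2]
        rfl
      map_smul' := by
        intro c x
        show θ (c • x.1) ξ = c • θ x.1 ξ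
        rw [hθ.smul c x.1 x.2]
        rfl }
  have hf : ∀ x, f x = θ x.1 ξ := fun x => rfl
  have hb : ∃ C : ℝ, ∀ x, ‖f x‖ ≤ C * ‖em N p ξ x‖ := ⟨l, fun x => hl x.1 x.2⟩
  set S : Kc N p ξ →L[ℂ] H := f.extendOfNorm (em N p ξ) with hS
  have hSe : ∀ x, S (em N p ξ x) = θ x.1 ξ := fun x =>
    LinearMap.extendOfNorm_eq (em_dense N p ξ) hb x
  set T : H →L[ℂ] H := S ∘L (Kc N p ξ).orthogonalProjectionOnto with hT
  have hTe : ∀ η, T η = S ((Kc N p ξ).orthogonalProjectionOnto η) := fun η => rfl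
  -- intertwining on the closure
  have hS1 : ∀ (x : H →L[ℂ] H) (hx : x ∈ corner N p) (k : Kc N p ξ),
      S ⟨x k.1, Kc_invariant N hpp ξ hx k.1 k.2⟩ = θ x (S k) := by
    intro x hx
    have hcont : Continuous fun k : Kc N p ξ =>
        S ⟨x k.1, Kc_invariant N hpp ξ hx k.1 k.2⟩ :=
      S.continuous.comp (Continuous.subtype_mk (x.continuous.comp continuous_subtype_val) _)
    intro k
    refine (em_dense N p ξ).induction_on (p := fun k : Kc N p ξ =>
      S ⟨x k.1, Kc_invariant N hpp ξ hx k.1 k.2⟩ = θ x (S k)) k ?_ ?_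
    · exact isClosed_eq hcont ((θ x).continuous.comp S.continuous)
    · intro y
      have h1 : (⟨x (em N p ξ y).1, Kc_invariant N hpp ξ hx _ (em N p ξ y).2⟩ : Kc N p ξ) =
          em N p ξ ⟨x * y.1, corner_mul hpp hx y.2⟩ := rfl
      rw [h1, hSe, hSe]
      show θ (x * y.1) ξ = θ x (θ y.1 ξ)
      rw [hθ.mul x hx y.1 y.2]
      rfl
  have hqS : ∀ k : Kc N p ξ, q (S k) = S k := by
    intro k
    refine (em_dense N p ξ).induction_on (p := fun k : Kc N p ξ => q (S k) = S k) k ?_ ?_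
    · exact isClosed_eq (q.continuous.comp S.continuous) S.continuous
    · intro y
      rw [hSe, ← mul_app, corner_left hpq (hθ.maps y.1 y.2)]
  have hint : ∀ x ∈ corner N p, T * x = θ x * T := by
    intro x hx
    ext η
    show T (x η) = θ x (T η)
    rw [hTe, hTe, ← hS1 x hx]
    congr 1
    apply Subtype.ext
    exact proj_comm N hpp ξ hx η
  have hqT : q * T = T := by
    ext η
    exact hqS _
  refine ⟨T, ?_, hqT, ?_, hint⟩
  · intro h0
    have h1 : T (p ξ) = q ξ := by
      have hpc := p_mem_corner hp hpp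
      have h2 : (Kc N p ξ).orthogonalProjectionOnto (p ξ) = em N p ξ ⟨p, hpc⟩ :=
        Submodule.orthogonalProjectionOnto_mem_subspace_eq_self (em N p ξ ⟨p, hpc⟩)
      rw [hTe, h2, hSe, hθ.map_unit hp hpp hq hpq]
    rw [h0] at h1
    exact hξ.ne_zero_apply hq hq0 h1.symm
  · rw [hint p (p_mem_corner hp hpp), hθ.map_unit hp hpp hq hpq, hqT]

end Pool.Agent.H19.BC
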